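import Pool.Agent.Lib.S6.CnAll
import Pool.Agent.Lib.S6.CnTop42

namespace Pool.Agent.Results.MP_9ccfb7_an.SurfaceHullNoDisc

open Pool.Agent.Lib.MP_9ccfb7_an

/-- There is a connected compact smooth surface in `ℂ × ℂ` whose polynomial hull is larger than
the surface and contains no analytic disc. -/
theorem result :
    ∃ S : Set (ℂ × ℂ), IsSurface S ∧ IsConnected S ∧ hull S ≠ S ∧ ¬ HasDisc (hull S) :=
  Pool.Agent.S6.Cn.mainc Pool.Agent.S6.Cn.st_top42

end Pool.Agent.Results.MP_9ccfb7_an.SurfaceHullNoDisc
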